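import Pool.Agent.Lead.Gro3

namespace Pool.Agent.Results.MP_0f8365_gt.Full

open Pool.Agent.Lead.Gro

theorem result : ∀ (X Y : Type) [TopologicalSpace X] [T35Space X] [TopologicalSpace Y]
    [T35Space Y] [Countable Y], Groth X → Groth (X × Y) ∧ WeaklyGroth (X × Y) :=
  fun _ _ _ _ _ _ _ h => ⟨groth_iff.2 (groth_countable (groth_iff.1 h)),
    wg_iff.2 (groth_countable (groth_iff.1 h) _ subset_rfl)⟩

end Pool.Agent.Results.MP_0f8365_gt.Full
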